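import Mathlib

/-! Linear algebra of real symmetric matrices which kill the constants. -/

set_option autoImplicit false

open Finset Matrix

namespace Pool.Agent.W832.KMP

variable {ι : Type} [Fintype ι] [DecidableEq ι]

/-- `y` is an eigenvalue with a nonconstant eigenvector -/
def EigM (A : Matrix ι ι ℝ) (y : ℝ) : Prop :=
  ∃ v : ι → ℝ, A *ᵥ v = y • v ∧ ∃ i j, v i ≠ v j

theorem diag_data (A : Matrix ι ι ℝ) (hA : A.IsHermitian) :
    ∃ (b : ι → ι → ℝ) (μ : ι → ℝ), (∀ i, A *ᵥ b i = μ i • b i) ∧
      (∀ i j, b i ⬝ᵥ b j = if i = j then 1 else 0) ∧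
      (∀ q : ι → ℝ, q = ∑ i, (b i ⬝ᵥ q) • b i) ∧
      A.charpoly = ∏ i, (Polynomial.X - Polynomial.C (μ i)) := by
  refine ⟨fun i => WithLp.ofLp (hA.eigenvectorBasis i), hA.eigenvalues, ?_, ?_, ?_, ?_⟩
  · intro i
    exact hA.mulVec_eigenvectorBasis i
  · intro i j
    have h := orthonormal_iff_ite.1 hA.eigenvectorBasis.orthonormal i j
    rw [← h, EuclideanSpace.inner_eq_star_dotProduct]
    simp [dotProduct_comm]
  · intro q
    have h := hA.eigenvectorBasis.sum_repr' (WithLp.toLp 2 q)
    have h2 := congrArg WithLp.ofLp h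
    simp only [WithLp.ofLp_sum, WithLp.ofLp_smul] at h2
    conv_lhs => rw [← h2]
    apply Finset.sum_congr rfl
    intro i _
    congr 1
    rw [EuclideanSpace.inner_eq_star_dotProduct]
    simp [dotProduct_comm]
  · have := hA.charpoly_eq
    simpa using this

omit [DecidableEq ι] in
theorem dot_mulVec_symm (A : Matrix ι ι ℝ) (hA : A.IsHermitian) (u v : ι → ℝ) :
    u ⬝ᵥ (A *ᵥ v) = (A *ᵥ u) ⬝ᵥ v := by
  rw [dotProduct_mulVec, ← mulVec_transpose]
  have : Aᵀ = A := by
    have := hA.eq
    rwa [conjTranspose_eq_transpose_of_trivial] at this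
  rw [this]

theorem spec_bound (A : Matrix ι ι ℝ) (hA : A.IsHermitian) (ε β : ℝ)
    (hβ : ∀ y, EigM A y → |1 - ε * y| ≤ β) (φ : (ι → ℝ) →ₗ[ℝ] ℝ)
    (hφ : ∀ v : ι → ℝ, (∀ i j, v i = v j) → φ v = 0) (q : ι → ℝ) :
    ∃ C, ∀ t : ℕ, |φ ((fun x => x - ε • (A *ᵥ x))^[t] q)| ≤ C * β ^ t := by
  obtain ⟨b, μ, hb, -, hexp, -⟩ := diag_data A hA
  have hit : ∀ t : ℕ, (fun x => x - ε • (A *ᵥ x))^[t] q =
      ∑ i, ((1 - ε * μ i) ^ t * (b i ⬝ᵥ q)) • b i := by
    intro t
    induction t with
    | zero => simpa using hexp q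
    | succ t ih =>
      rw [Function.iterate_succ_apply', ih]
      have h1 : A *ᵥ (∑ i, ((1 - ε * μ i) ^ t * (b i ⬝ᵥ q)) • b i) =
          ∑ i, ((1 - ε * μ i) ^ t * (b i ⬝ᵥ q)) • (μ i • b i) := by
        have := map_sum A.mulVecLin (fun i => ((1 - ε * μ i) ^ t * (b i ⬝ᵥ q)) • b i) univ
        simp only [mulVecLin_apply] at this
        rw [this]
        apply Finset.sum_congr rfl
        intro i _
        rw [mulVec_smul, hb i]
      rw [h1, Finset.smul_sum, ← Finset.sum_sub_distrib]
      apply Finset.sum_congr rfl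
      intro i _
      rw [smul_smul, smul_smul, ← sub_smul]
      congr 1
      ring
  refine ⟨∑ i, |b i ⬝ᵥ q| * |φ (b i)|, fun t => ?_⟩
  rw [hit t, map_sum, Finset.sum_mul]
  refine (Finset.abs_sum_le_sum_abs _ _).trans (Finset.sum_le_sum fun i _ => ?_)
  rw [map_smul, smul_eq_mul, abs_mul, abs_mul, abs_pow]
  by_cases hc : ∀ j k, b i j = b i k
  · rw [hφ _ hc]; simp
  · push Not at hc
    have h2 : |1 - ε * μ i| ≤ β := hβ _ ⟨b i, hb i, hc⟩
    have h3 : |1 - ε * μ i| ^ t ≤ β ^ t := pow_le_pow_left₀ (abs_nonneg _) h2 t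
    calc |1 - ε * μ i| ^ t * |b i ⬝ᵥ q| * |φ (b i)| ≤ β ^ t * |b i ⬝ᵥ q| * |φ (b i)| := by
          gcongr
      _ = _ := by ring

/-- the complex roots of the characteristic polynomial, with one zero removed, are the
eigenvalues with nonconstant eigenvectors -/
theorem mem_roots_erase (A : Matrix ι ι ℝ) (hA : A.IsHermitian) (h1 : A *ᵥ (fun _ => 1) = 0)
    (z : ℂ) :
    z ∈ (A.map (fun x : ℝ => (x : ℂ))).charpoly.roots.erase 0 ↔ ∃ y : ℝ, z = y ∧ EigM A y := by
  obtain ⟨b, μ, hb, horth, hexp, hchar⟩ := diag_data A hA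
  have hroots : (A.map (fun x : ℝ => (x : ℂ))).charpoly.roots =
      (univ : Finset ι).val.map (fun i => (μ i : ℂ)) := by
    have e1 : (A.map (fun x : ℝ => (x : ℂ))).charpoly =
        A.charpoly.map Complex.ofRealHom := by
      rw [← Matrix.charpoly_map]
      rfl
    rw [e1, hchar, Polynomial.map_prod]
    simp only [Polynomial.map_sub, Polynomial.map_X, Polynomial.map_C]
    have := Polynomial.roots_multiset_prod_X_sub_C
      ((univ : Finset ι).val.map (fun i => (μ i : ℂ)))
    rw [Multiset.map_map] at this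
    exact this
  rw [hroots]
  have hbne : ∀ i, b i ≠ 0 := by
    intro i h0
    have := horth i i
    rw [h0] at this
    simp at this
  have hconst : ∀ v : ι → ℝ, (∀ i j, v i = v j) → A *ᵥ v = 0 := by
    intro v hv
    by_cases hι : Nonempty ι
    · obtain ⟨i0⟩ := hι
      have : v = (v i0) • (fun _ => (1 : ℝ)) := by
        funext i
        simp [hv i i0]
      rw [this, mulVec_smul, h1, smul_zero]
    · funext i
      exact absurd ⟨i⟩ hι
  constructor
  · intro hz
    by_cases hz0 : z = 0
    · subst hz0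
      have h2 : 0 < Multiset.count (0 : ℂ)
          (((univ : Finset ι).val.map (fun i => (μ i : ℂ))).erase 0) := Multiset.count_pos.2 hz
      rw [Multiset.count_erase_self, Multiset.count_map] at h2
      have h3 : 1 < ((univ : Finset ι).filter (fun i => (0 : ℂ) = (μ i : ℂ))).card := by
        change 1 < Multiset.card (((univ : Finset ι).filter (fun i => (0 : ℂ) = (μ i : ℂ))).val)
        rw [Finset.filter_val]
        omega
      obtain ⟨i, hi, j, hj, hij⟩ := Finset.one_lt_card.1 h3
      rw [Finset.mem_filter] at hi hj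
      have hi0 : μ i = 0 := by exact_mod_cast hi.2.symm
      have hj0 : μ j = 0 := by exact_mod_cast hj.2.symm
      refine ⟨0, by simp, ?_⟩
      by_cases hc : ∃ k l, b i k ≠ b i l
      · exact ⟨b i, by rw [hb i, hi0], hc⟩
      · by_cases hc' : ∃ k l, b j k ≠ b j l
        · exact ⟨b j, by rw [hb j, hj0], hc'⟩
        · exfalso
          push Not at hc hc'
          -- both constant
          have e1 : b i = (b i i) • (fun _ => (1 : ℝ)) := by
            funext k; simp [hc k i]
          have e2 : b j = (b j i) • (fun _ => (1 : ℝ)) := by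
            funext k; simp [hc' k i]
          have h5 := horth i j
          rw [if_neg hij, e1, e2] at h5
          simp only [smul_dotProduct, dotProduct_smul, smul_eq_mul] at h5
          have h6 : b i i ≠ 0 := by
            intro h; apply hbne i; rw [e1, h, zero_smul]
          have h7 : b j i ≠ 0 := by
            intro h; apply hbne j; rw [e2, h, zero_smul]
          have h8 : ((fun _ => (1 : ℝ)) : ι → ℝ) ⬝ᵥ (fun _ => 1) ≠ 0 := by
            have : Nonempty ι := ⟨i⟩
            simp [dotProduct]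
          exact (mul_ne_zero h7 (mul_ne_zero h6 h8)) (by simpa using h5)
    · rw [Multiset.mem_erase_of_ne hz0, Multiset.mem_map] at hz
      obtain ⟨i, -, hi⟩ := hz
      refine ⟨μ i, hi.symm, b i, hb i, ?_⟩
      by_contra hcon
      push Not at hcon
      have h2 := hconst (b i) hcon
      rw [hb i] at h2
      rcases smul_eq_zero.1 h2 with h3 | h3
      · apply hz0; rw [← hi, h3]; simp
      · exact hbne i h3
  · rintro ⟨y, rfl, v, hv, hnc⟩
    have hco : ∀ w : ι → ℝ, A *ᵥ w = y • w → ∀ i, (b i ⬝ᵥ w) ≠ 0 → μ i = y := by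
      intro w hw i hi
      have h2 := dot_mulVec_symm A hA (b i) w
      rw [hw, hb i, dotProduct_smul, smul_dotProduct, smul_eq_mul, smul_eq_mul] at h2
      exact (mul_right_cancel₀ hi h2).symm
    have hex : ∀ w : ι → ℝ, w ≠ 0 → ∃ i, (b i ⬝ᵥ w) ≠ 0 := by
      intro w hw
      by_contra hcon
      push Not at hcon
      apply hw
      rw [hexp w]
      apply Finset.sum_eq_zero
      intro i _
      rw [hcon i, zero_smul]
    have hv0 : v ≠ 0 := by
      rintro rfl
      obtain ⟨i, j, hij⟩ := hnc
      exact hij rfl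
    by_cases hy : y = 0
    · subst hy
      rw [Complex.ofReal_zero]
      -- two zeros
      suffices h3 : 1 < ((univ : Finset ι).filter (fun i => (0 : ℂ) = (μ i : ℂ))).card by
        apply Multiset.count_pos.1
        rw [Multiset.count_erase_self, Multiset.count_map]
        change 1 < Multiset.card (((univ : Finset ι).filter (fun i => (0 : ℂ) = (μ i : ℂ))).val) at h3
        rw [Finset.filter_val] at h3
        omega
      by_contra hcon
      have hcard : ((univ : Finset ι).filter (fun i => (0 : ℂ) = (μ i : ℂ))).card ≤ 1 := by omega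
      rw [Finset.card_le_one] at hcard
      obtain ⟨i, hi⟩ := hex v hv0
      have hμi := hco v hv i hi
      have hone : (fun _ => (1 : ℝ) : ι → ℝ) ≠ 0 := by
        obtain ⟨i, j, hij⟩ := hnc
        intro h
        have := congrFun h i
        simp at this
      have h1' : A *ᵥ (fun _ => (1 : ℝ)) = (0 : ℝ) • (fun _ => (1 : ℝ)) := by
        rw [h1, zero_smul]
      have hall : ∀ w : ι → ℝ, A *ᵥ w = (0 : ℝ) • w → w = (b i ⬝ᵥ w) • b i := by
        intro w hw
        conv_lhs => rw [hexp w]
        rw [Finset.sum_eq_single i]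
        · intro j _ hj
          by_cases hz : (b j ⬝ᵥ w) = 0
          · rw [hz, zero_smul]
          · exfalso
            apply hj
            apply hcard
            · rw [Finset.mem_filter]; exact ⟨Finset.mem_univ _, by rw [hco w hw j hz]; simp⟩
            · rw [Finset.mem_filter]; exact ⟨Finset.mem_univ _, by rw [hμi]; simp⟩
        · intro h; exact absurd (Finset.mem_univ _) h
      have h4 := hall _ h1'
      have h5 := hall _ hv
      obtain ⟨k, l, hkl⟩ := hnc
      apply hkl
      have h6 : (b i ⬝ᵥ (fun _ => (1 : ℝ))) ≠ 0 := by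
        intro h; rw [h, zero_smul] at h4; exact hone h4
      have h7 : ∀ m, (1 : ℝ) = (b i ⬝ᵥ (fun _ => (1 : ℝ))) * b i m := fun m => by
        have := congrFun h4 m
        simpa using this
      have h8 : b i k = b i l := by
        have := (h7 k).symm.trans (h7 l)
        exact mul_left_cancel₀ h6 this
      rw [h5]
      simp [h8]
    · have hy' : (y : ℂ) ≠ 0 := by exact_mod_cast hy
      rw [Multiset.mem_erase_of_ne hy', Multiset.mem_map]
      obtain ⟨i, hi⟩ := hex v hv0
      exact ⟨i, by simp, by rw [hco v hv i hi]⟩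

/-- existence of the least eigenvalue with a nonconstant eigenvector -/
theorem exists_least (A : Matrix ι ι ℝ) (hA : A.IsHermitian) (hcard : 1 < Fintype.card ι) :
    ∃ x, EigM A x ∧ ∀ y, EigM A y → x ≤ y := by
  obtain ⟨b, μ, hb, horth, hexp, hchar⟩ := diag_data A hA
  have hbne : ∀ i, b i ≠ 0 := by
    intro i h0
    have := horth i i
    rw [h0] at this
    simp at this
  have hsub : {y | EigM A y} ⊆ Set.range μ := by
    rintro y ⟨v, hv, hnc⟩
    have hv0 : v ≠ 0 := by
      rintro rfl
      obtain ⟨i, j, hij⟩ := hnc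
      exact hij rfl
    have : ∃ i, (b i ⬝ᵥ v) ≠ 0 := by
      by_contra hcon
      push Not at hcon
      apply hv0
      rw [hexp v]
      apply Finset.sum_eq_zero
      intro i _
      rw [hcon i, zero_smul]
    obtain ⟨i, hi⟩ := this
    refine ⟨i, ?_⟩
    have h2 := dot_mulVec_symm A hA (b i) v
    rw [hv, hb i, dotProduct_smul, smul_dotProduct, smul_eq_mul, smul_eq_mul] at h2
    exact (mul_right_cancel₀ hi h2).symm
  have hfin : {y | EigM A y}.Finite := (Set.finite_range μ).subset hsub
  have hne : {y | EigM A y}.Nonempty := by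
    obtain ⟨i, j, hij⟩ := Fintype.one_lt_card_iff.1 hcard
    by_cases hc : ∃ k l, b i k ≠ b i l
    · exact ⟨μ i, b i, hb i, hc⟩
    · by_cases hc' : ∃ k l, b j k ≠ b j l
      · exact ⟨μ j, b j, hb j, hc'⟩
      · exfalso
        push Not at hc hc'
        have e1 : b i = (b i i) • (fun _ => (1 : ℝ)) := by
          funext k; simp [hc k i]
        have e2 : b j = (b j i) • (fun _ => (1 : ℝ)) := by
          funext k; simp [hc' k i]
        have h5 := horth i j
        rw [if_neg hij, e1, e2] at h5
        simp only [smul_dotProduct, dotProduct_smul, smul_eq_mul] at h5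
        have h6 : b i i ≠ 0 := by
          intro h; apply hbne i; rw [e1, h, zero_smul]
        have h7 : b j i ≠ 0 := by
          intro h; apply hbne j; rw [e2, h, zero_smul]
        have h8 : ((fun _ => (1 : ℝ)) : ι → ℝ) ⬝ᵥ (fun _ => 1) ≠ 0 := by
          have : Nonempty ι := ⟨i⟩
          simp [dotProduct]
        exact (mul_ne_zero h7 (mul_ne_zero h6 h8)) (by simpa using h5)
  obtain ⟨x, hx, hmin⟩ := Set.exists_min_image _ (fun y : ℝ => y) hfin hne
  exact ⟨x, hx, fun y hy => hmin y hy⟩

end Pool.Agent.W832.KMP
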