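import Mathlib

/-! Combinatorics of block averages of functions of particle configurations. -/

set_option autoImplicit false

open Finset

namespace Pool.Agent.W832.KMP

variable {n : ℕ}

/-- one particle at `i` -/
def dl (i : Fin n) : Fin n → ℕ := Pi.single i 1

theorem dl_apply (i j : Fin n) : dl i j = if j = i then 1 else 0 := by
  simp [dl, Pi.single_apply]

theorem dl_self (i : Fin n) : dl i i = 1 := by simp [dl]

theorem dl_ne {i j : Fin n} (h : j ≠ i) : dl i j = 0 := by simp [dl, h]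

theorem sum_dl (i : Fin n) : ∑ j, dl i j = 1 := by simp [dl]

theorem sum_add_dl (f : Fin n → ℕ) (i : Fin n) : ∑ j, (f + dl i) j = ∑ j, f j + 1 := by
  simp [Finset.sum_add_distrib, sum_dl]

/-- the configurations which agree with `f` outside `B` and have as many particles -/
def cls (B : Finset (Fin n)) (f : Fin n → ℕ) : Finset (Fin n → ℕ) :=
  (piAntidiag univ (∑ i, f i)).filter (fun g => ∀ j, j ∉ B → g j = f j)

theorem mem_cls {B : Finset (Fin n)} {f g : Fin n → ℕ} :
    g ∈ cls B f ↔ ∑ i, g i = ∑ i, f i ∧ ∀ j, j ∉ B → g j = f j := by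
  simp [cls]

theorem self_mem_cls (B : Finset (Fin n)) (f : Fin n → ℕ) : f ∈ cls B f := by
  simp [mem_cls]

theorem cls_card_pos (B : Finset (Fin n)) (f : Fin n → ℕ) : 0 < (cls B f).card :=
  Finset.card_pos.2 ⟨f, self_mem_cls B f⟩

theorem cls_card_ne (B : Finset (Fin n)) (f : Fin n → ℕ) : ((cls B f).card : ℝ) ≠ 0 := by
  exact_mod_cast (cls_card_pos B f).ne'

theorem cls_eq_of_mem {B : Finset (Fin n)} {f g : Fin n → ℕ} (h : g ∈ cls B f) :
    cls B g = cls B f := by
  rw [mem_cls] at h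
  ext x
  rw [mem_cls, mem_cls, h.1]
  constructor
  · rintro ⟨h1, h2⟩
    exact ⟨h1, fun j hj => (h2 j hj).trans (h.2 j hj)⟩
  · rintro ⟨h1, h2⟩
    exact ⟨h1, fun j hj => (h2 j hj).trans (h.2 j hj).symm⟩

theorem sum_compl_add (B : Finset (Fin n)) (f : Fin n → ℕ) :
    ∑ i ∈ B, f i + ∑ i ∈ Bᶜ, f i = ∑ i, f i := Finset.sum_add_sum_compl B f

theorem block_sum_eq {B : Finset (Fin n)} {f g : Fin n → ℕ} (h : g ∈ cls B f) :
    ∑ i ∈ B, g i = ∑ i ∈ B, f i := by
  rw [mem_cls] at h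
  have h1 : ∑ i ∈ Bᶜ, g i = ∑ i ∈ Bᶜ, f i :=
    Finset.sum_congr rfl fun j hj => h.2 j (Finset.mem_compl.1 hj)
  have h2 := sum_compl_add B f
  have h3 := sum_compl_add B g
  omega

theorem sum_cls_out {B : Finset (Fin n)} {j : Fin n} (hj : j ∉ B) (f : Fin n → ℕ)
    (h : (Fin n → ℕ) → ℝ) :
    ∑ g ∈ cls B (f + dl j), h g = ∑ g ∈ cls B f, h (g + dl j) := by
  symm
  refine Finset.sum_nbij' (fun g => g + dl j) (fun g => g - dl j) ?_ ?_ ?_ ?_ ?_
  · intro g hg
    rw [mem_cls] at hg ⊢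
    refine ⟨by rw [sum_add_dl, sum_add_dl, hg.1], fun i hi => ?_⟩
    simp [hg.2 i hi]
  · intro g hg
    rw [mem_cls] at hg
    have hgj : g j = f j + 1 := by
      rw [hg.2 j hj]
      simp [dl_self]
    have hadd : g - dl j + dl j = g := by
      funext i
      simp only [Pi.add_apply, Pi.sub_apply]
      by_cases hi : i = j
      · subst hi; rw [dl_self]; omega
      · rw [dl_ne hi]; omega
    rw [mem_cls]
    refine ⟨?_, fun i hi => ?_⟩
    · have h1 := sum_add_dl (g - dl j) j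
      rw [hadd, hg.1, sum_add_dl] at h1
      omega
    · have := hg.2 i hi
      simp only [Pi.add_apply, Pi.sub_apply] at this ⊢
      omega
  · intro g _
    funext i
    simp
  · intro g hg
    rw [mem_cls] at hg
    have hgj : g j = f j + 1 := by
      rw [hg.2 j hj]
      simp [dl_self]
    funext i
    simp only [Pi.add_apply, Pi.sub_apply]
    by_cases hi : i = j
    · subst hi; rw [dl_self]; omega
    · rw [dl_ne hi]; omega
  · intro g _
    rfl

theorem sum_cls_in {B : Finset (Fin n)} {i i0 : Fin n} (hi : i ∈ B) (hi0 : i0 ∈ B)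
    (f : Fin n → ℕ) (h : (Fin n → ℕ) → ℝ) :
    ∑ g ∈ cls B f, ((g i : ℝ) + 1) * h (g + dl i) =
      ∑ g ∈ cls B (f + dl i0), (g i : ℝ) * h g := by
  classical
  have h1 : ∑ g ∈ cls B (f + dl i0), (g i : ℝ) * h g =
      ∑ g ∈ (cls B (f + dl i0)).filter (fun g => g i ≠ 0), (g i : ℝ) * h g := by
    rw [Finset.sum_filter_of_ne]
    intro g _ hne h0
    apply hne
    rw [h0]; simp
  rw [h1]
  refine Finset.sum_nbij' (fun g => g + dl i) (fun g => g - dl i) ?_ ?_ ?_ ?_ ?_
  · intro g hg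
    rw [mem_cls] at hg
    rw [Finset.mem_filter, mem_cls]
    refine ⟨⟨by rw [sum_add_dl, sum_add_dl, hg.1], fun j hj => ?_⟩, ?_⟩
    · have e1 : j ≠ i := fun e => hj (e ▸ hi)
      have e2 : j ≠ i0 := fun e => hj (e ▸ hi0)
      simp [dl_ne e1, dl_ne e2, hg.2 j hj]
    · simp [dl_self]
  · intro g hg
    rw [Finset.mem_filter, mem_cls] at hg
    obtain ⟨⟨h2, h3⟩, h4⟩ := hg
    have hadd : g - dl i + dl i = g := by
      funext j
      simp only [Pi.add_apply, Pi.sub_apply]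
      by_cases hj : j = i
      · subst hj; rw [dl_self]; omega
      · rw [dl_ne hj]; omega
    rw [mem_cls]
    refine ⟨?_, fun j hj => ?_⟩
    · have h1 := sum_add_dl (g - dl i) i
      rw [hadd, h2, sum_add_dl] at h1
      omega
    · have e1 : j ≠ i := fun e => hj (e ▸ hi)
      have e2 : j ≠ i0 := fun e => hj (e ▸ hi0)
      have := h3 j hj
      simp only [Pi.add_apply, Pi.sub_apply, dl_ne e1, dl_ne e2] at this ⊢
      omega
  · intro g _
    funext j
    simp
  · intro g hg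
    rw [Finset.mem_filter] at hg
    have h4 := hg.2
    funext j
    simp only [Pi.add_apply, Pi.sub_apply]
    by_cases hj : j = i
    · subst hj; rw [dl_self]; omega
    · rw [dl_ne hj]; omega
  · intro g _
    simp [dl_self]

/-- the block average -/
noncomputable def avg (B : Finset (Fin n)) (c : (Fin n → ℕ) → ℝ) (f : Fin n → ℕ) : ℝ :=
  (∑ g ∈ cls B f, c g) / (cls B f).card

theorem avg_add (B : Finset (Fin n)) (c c' : (Fin n → ℕ) → ℝ) (f : Fin n → ℕ) :
    avg B (fun g => c g + c' g) f = avg B c f + avg B c' f := by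
  simp [avg, Finset.sum_add_distrib, add_div]

theorem avg_mul (B : Finset (Fin n)) (a : ℝ) (c : (Fin n → ℕ) → ℝ) (f : Fin n → ℕ) :
    avg B (fun g => a * c g) f = a * avg B c f := by
  simp [avg, ← Finset.mul_sum, mul_div_assoc]

theorem avg_sum {ι : Type} (s : Finset ι) (B : Finset (Fin n)) (c : ι → (Fin n → ℕ) → ℝ)
    (f : Fin n → ℕ) :
    avg B (fun g => ∑ i ∈ s, c i g) f = ∑ i ∈ s, avg B (c i) f := by
  simp only [avg]
  rw [Finset.sum_comm, Finset.sum_div]

theorem avg_const (B : Finset (Fin n)) (a : ℝ) (f : Fin n → ℕ) :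
    avg B (fun _ => a) f = a := by
  have := cls_card_ne B f
  simp only [avg, Finset.sum_const, nsmul_eq_mul]
  field_simp

theorem avg_congr {B : Finset (Fin n)} {c c' : (Fin n → ℕ) → ℝ} {f : Fin n → ℕ}
    (h : ∀ g ∈ cls B f, c g = c' g) : avg B c f = avg B c' f := by
  unfold avg
  rw [Finset.sum_congr rfl h]

theorem avg_mono {B : Finset (Fin n)} {c c' : (Fin n → ℕ) → ℝ} {f : Fin n → ℕ}
    (h : ∀ g ∈ cls B f, c g ≤ c' g) : avg B c f ≤ avg B c' f := by
  unfold avg
  have := cls_card_pos B f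
  gcongr
  exact h _ ‹_›

theorem abs_avg_le (B : Finset (Fin n)) (c : (Fin n → ℕ) → ℝ) (f : Fin n → ℕ) :
    |avg B c f| ≤ avg B (fun g => |c g|) f := by
  unfold avg
  rw [abs_div, Nat.abs_cast]
  gcongr
  exact Finset.abs_sum_le_sum_abs _ _

theorem avg_eq_of_mem {B : Finset (Fin n)} {f g : Fin n → ℕ} (h : g ∈ cls B f)
    (c : (Fin n → ℕ) → ℝ) : avg B c g = avg B c f := by
  unfold avg
  rw [cls_eq_of_mem h]

theorem avg_out {B : Finset (Fin n)} {j : Fin n} (hj : j ∉ B) (f : Fin n → ℕ)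
    (c : (Fin n → ℕ) → ℝ) :
    avg B c (f + dl j) = avg B (fun g => c (g + dl j)) f := by
  unfold avg
  have h1 := sum_cls_out hj f c
  have h2 := sum_cls_out hj f (fun _ => 1)
  simp only [Finset.sum_const, nsmul_eq_mul, mul_one] at h2
  rw [h1, h2]

/-- `s(g) = Σ_{i ∈ B} (g i + 1)` -/
noncomputable def sB (B : Finset (Fin n)) (g : Fin n → ℕ) : ℝ := ∑ i ∈ B, ((g i : ℝ) + 1)

theorem sB_eq {B : Finset (Fin n)} {f g : Fin n → ℕ} (h : g ∈ cls B f) : sB B g = sB B f := by
  have := block_sum_eq h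
  unfold sB
  simp only [Finset.sum_add_distrib]
  have h2 : (∑ i ∈ B, (g i : ℝ)) = ∑ i ∈ B, (f i : ℝ) := by exact_mod_cast this
  rw [h2]

theorem sB_pos {B : Finset (Fin n)} {i0 : Fin n} (h : i0 ∈ B) (g : Fin n → ℕ) : 0 < sB B g := by
  unfold sB
  apply Finset.sum_pos
  · intro i _
    positivity
  · exact ⟨i0, h⟩

theorem sB_in {B : Finset (Fin n)} {i : Fin n} (h : i ∈ B) (g : Fin n → ℕ) :
    sB B (g + dl i) = sB B g + 1 := by
  unfold sB
  have : ∀ j ∈ B, (((g + dl i) j : ℕ) : ℝ) + 1 = ((g j : ℝ) + 1) + (if j = i then 1 else 0) := by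
    intro j _
    rw [Pi.add_apply, dl_apply]
    push_cast
    ring
  rw [Finset.sum_congr rfl this, Finset.sum_add_distrib]
  simp [h]

theorem sB_out {B : Finset (Fin n)} {i : Fin n} (h : i ∉ B) (g : Fin n → ℕ) :
    sB B (g + dl i) = sB B g := by
  unfold sB
  apply Finset.sum_congr rfl
  intro j hj
  have : j ≠ i := fun e => h (e ▸ hj)
  simp [dl_ne this]

/-- `p_i(g) = (g i + 1) / s(g)` -/
noncomputable def pB (B : Finset (Fin n)) (g : Fin n → ℕ) (i : Fin n) : ℝ := ((g i : ℝ) + 1) / sB B g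

theorem sum_pB {B : Finset (Fin n)} {i0 : Fin n} (h : i0 ∈ B) (g : Fin n → ℕ) :
    ∑ i ∈ B, pB B g i = 1 := by
  unfold pB
  rw [← Finset.sum_div]
  exact div_self (sB_pos h g).ne'

/-- the Pólya step -/
noncomputable def TB (B : Finset (Fin n)) (c : (Fin n → ℕ) → ℝ) (g : Fin n → ℕ) : ℝ :=
  ∑ i ∈ B, pB B g i * c (g + dl i)

theorem avg_in {B : Finset (Fin n)} {i0 : Fin n} (hi0 : i0 ∈ B) (f : Fin n → ℕ)
    (c : (Fin n → ℕ) → ℝ) :
    avg B c (f + dl i0) = avg B (TB B c) f := by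
  -- sums
  have key : ∀ h : (Fin n → ℕ) → ℝ, ∑ g ∈ cls B f, TB B h g * sB B f =
      (∑ i ∈ B, ((f + dl i0) i : ℝ)) * ∑ g ∈ cls B (f + dl i0), h g := by
    intro h
    have e1 : ∀ g ∈ cls B f, TB B h g * sB B f = ∑ i ∈ B, ((g i : ℝ) + 1) * h (g + dl i) := by
      intro g hg
      unfold TB pB
      rw [Finset.sum_mul]
      apply Finset.sum_congr rfl
      intro i _
      rw [sB_eq hg]
      have := (sB_pos hi0 f).ne'
      field_simp
    rw [Finset.sum_congr rfl e1, Finset.sum_comm]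
    rw [Finset.sum_congr rfl (fun i hi => sum_cls_in hi hi0 f h), Finset.sum_comm, Finset.mul_sum]
    apply Finset.sum_congr rfl
    intro g hg
    rw [← Finset.sum_mul]
    congr 1
    have := block_sum_eq hg
    exact_mod_cast this
  have k1 := key c
  have k2 := key (fun _ => 1)
  have e2 : ∀ g, TB B (fun _ => (1 : ℝ)) g = 1 := by
    intro g
    simp [TB, sum_pB hi0]
  simp only [e2, Finset.sum_const, nsmul_eq_mul, mul_one, one_mul] at k2
  rw [← Finset.sum_mul] at k1
  have hs := (sB_pos hi0 f)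
  have hc1 := cls_card_pos B f
  have hc2 := cls_card_pos B (f + dl i0)
  have hc1' : (0 : ℝ) < (cls B f).card := by exact_mod_cast hc1
  have hc2' : (0 : ℝ) < (cls B (f + dl i0)).card := by exact_mod_cast hc2
  have hl : (0 : ℝ) < ∑ i ∈ B, ((f + dl i0) i : ℝ) := by
    by_contra hcon
    have : ((cls B f).card : ℝ) * sB B f ≤ 0 := by
      rw [k2]
      exact mul_nonpos_of_nonpos_of_nonneg (not_lt.1 hcon) hc2'.le
    have : 0 < ((cls B f).card : ℝ) * sB B f := by positivity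
    linarith
  unfold avg
  rw [div_eq_div_iff hc2'.ne' hc1'.ne']
  -- A * card f = T * card f'
  have : (∑ i ∈ B, ((f + dl i0) i : ℝ)) * ((∑ g ∈ cls B (f + dl i0), c g) * (cls B f).card) =
      (∑ i ∈ B, ((f + dl i0) i : ℝ)) * ((∑ g ∈ cls B f, TB B c g) * (cls B (f + dl i0)).card) := by
    calc _ = ((∑ i ∈ B, ((f + dl i0) i : ℝ)) * (∑ g ∈ cls B (f + dl i0), c g)) * (cls B f).card := by
          ring
      _ = ((∑ g ∈ cls B f, TB B c g) * sB B f) * (cls B f).card := by rw [k1]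
      _ = (∑ g ∈ cls B f, TB B c g) * ((cls B f).card * sB B f) := by ring
      _ = _ := by rw [k2]; ring
  exact mul_left_cancel₀ hl.ne' this

end Pool.Agent.W832.KMP
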