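import Pool.Agent.W832.KMP.Step

/-! The lift from `k` to `k+1` particles. -/

set_option autoImplicit false

open Finset

namespace Pool.Agent.W832.KMP

variable {n : ℕ}

/-- the sum over all particles of the function of the configuration with the particle removed -/
noncomputable def lift (c : (Fin n → ℕ) → ℝ) (η : Fin n → ℕ) : ℝ :=
  ∑ i, (η i : ℝ) * c (η - dl i)

theorem sub_dl_add {η : Fin n → ℕ} {i : Fin n} (h : η i ≠ 0) : η - dl i + dl i = η := by
  funext j
  simp only [Pi.add_apply, Pi.sub_apply]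
  by_cases hj : j = i
  · subst hj; rw [dl_self]; omega
  · rw [dl_ne hj]; omega

theorem add_dl_sub (η : Fin n → ℕ) (i : Fin n) : η + dl i - dl i = η := by
  funext j
  simp

theorem avg_one_out {B : Finset (Fin n)} {i : Fin n} (hi : i ∉ B) (c : (Fin n → ℕ) → ℝ)
    (η : Fin n → ℕ) :
    avg B (fun g => (g i : ℝ) * c (g - dl i)) η = (η i : ℝ) * avg B c (η - dl i) := by
  by_cases h : η i = 0
  · rw [h, Nat.cast_zero, zero_mul]
    have : avg B (fun g => (g i : ℝ) * c (g - dl i)) η = avg B (fun _ => (0 : ℝ)) η := by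
      apply avg_congr
      intro g hg
      rw [mem_cls] at hg
      rw [hg.2 i hi, h]
      simp
    rw [this, avg_const]
  · conv_lhs => rw [← sub_dl_add h]
    rw [avg_out hi]
    have : avg B (fun g => (((g + dl i) i : ℕ) : ℝ) * c (g + dl i - dl i)) (η - dl i) =
        avg B (fun g => (η i : ℝ) * c g) (η - dl i) := by
      apply avg_congr
      intro g hg
      rw [mem_cls] at hg
      rw [add_dl_sub]
      have e : (g + dl i) i = η i := by
        have h1 := hg.2 i hi
        have h2 := congrFun (sub_dl_add h) i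
        simp only [Pi.add_apply] at h2 ⊢
        omega
      rw [e]
    rw [this, avg_mul]

theorem cls_sub {B : Finset (Fin n)} {f : Fin n → ℕ} {i i0 : Fin n} (hi : i ∈ B) (hi0 : i0 ∈ B)
    (h : (f + dl i0) i ≠ 0) : f + dl i0 - dl i ∈ cls B f := by
  rw [mem_cls]
  refine ⟨?_, fun j hj => ?_⟩
  · have h1 := sum_add_dl (f + dl i0 - dl i) i
    rw [sub_dl_add h, sum_add_dl] at h1
    omega
  · have e1 : j ≠ i := fun e => hj (e ▸ hi)
    have e2 : j ≠ i0 := fun e => hj (e ▸ hi0)
    simp [dl_ne e1, dl_ne e2]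

theorem avg_block (B : Finset (Fin n)) (c : (Fin n → ℕ) → ℝ) (η : Fin n → ℕ) :
    avg B (fun g => ∑ i ∈ B, (g i : ℝ) * c (g - dl i)) η =
      ∑ i ∈ B, (η i : ℝ) * avg B c (η - dl i) := by
  by_cases h : ∃ i0 ∈ B, η i0 ≠ 0
  · obtain ⟨i0, hi0, hne⟩ := h
    obtain ⟨f, rfl⟩ : ∃ f, η = f + dl i0 := ⟨η - dl i0, (sub_dl_add hne).symm⟩
    -- right side
    have hR : ∑ i ∈ B, (((f + dl i0) i : ℕ) : ℝ) * avg B c (f + dl i0 - dl i) =
        (∑ i ∈ B, (((f + dl i0) i : ℕ) : ℝ)) * avg B c f := by
      rw [Finset.sum_mul]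
      apply Finset.sum_congr rfl
      intro i hi
      by_cases h0 : (f + dl i0) i = 0
      · rw [h0]; simp
      · rw [avg_eq_of_mem (cls_sub hi hi0 h0)]
    rw [hR]
    have key : ∀ c : (Fin n → ℕ) → ℝ,
        ∑ g ∈ cls B (f + dl i0), ∑ i ∈ B, (g i : ℝ) * c (g - dl i) =
          sB B f * ∑ g ∈ cls B f, c g := by
      intro c
      rw [Finset.sum_comm, Finset.mul_sum]
      have : ∀ i ∈ B, ∑ g ∈ cls B (f + dl i0), (g i : ℝ) * c (g - dl i) =
          ∑ g ∈ cls B f, ((g i : ℝ) + 1) * c g := by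
        intro i hi
        rw [← sum_cls_in hi hi0 f (fun g => c (g - dl i))]
        simp only [add_dl_sub]
      rw [Finset.sum_congr rfl this, Finset.sum_comm]
      apply Finset.sum_congr rfl
      intro g hg
      rw [← Finset.sum_mul, ← sB_eq hg]
      rfl
    have k1 := key c
    have k2 := key (fun _ => 1)
    have e3 : ∀ g ∈ cls B (f + dl i0), ∑ i ∈ B, (g i : ℝ) * (1 : ℝ) =
        ∑ i ∈ B, (((f + dl i0) i : ℕ) : ℝ) := by
      intro g hg
      simp only [mul_one]
      exact_mod_cast block_sum_eq hg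
    rw [Finset.sum_congr rfl e3] at k2
    simp only [Finset.sum_const, nsmul_eq_mul, mul_one] at k2
    have hc1' : (0 : ℝ) < (cls B f).card := by exact_mod_cast cls_card_pos B f
    have hc2' : (0 : ℝ) < (cls B (f + dl i0)).card := by exact_mod_cast cls_card_pos B (f + dl i0)
    unfold avg
    rw [k1]
    rw [← mul_div_assoc, div_eq_div_iff hc2'.ne' hc1'.ne']
    linear_combination (-(∑ g ∈ cls B f, c g)) * k2
  · push Not at h
    have h2 : ∑ i ∈ B, (η i : ℝ) * avg B c (η - dl i) = 0 := by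
      apply Finset.sum_eq_zero
      intro i hi
      rw [h i hi]; simp
    rw [h2]
    have : avg B (fun g => ∑ i ∈ B, (g i : ℝ) * c (g - dl i)) η = avg B (fun _ => (0 : ℝ)) η := by
      apply avg_congr
      intro g hg
      apply Finset.sum_eq_zero
      intro i hi
      have h3 := block_sum_eq hg
      rw [Finset.sum_eq_zero h] at h3
      rw [Finset.sum_eq_zero_iff.1 h3 i hi]
      simp
    rw [this, avg_const]

theorem lift_avg (B : Finset (Fin n)) (c : (Fin n → ℕ) → ℝ) (η : Fin n → ℕ) :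
    avg B (lift c) η = lift (avg B c) η := by
  have e1 : avg B (lift c) η = avg B (fun g => (∑ i ∈ B, (g i : ℝ) * c (g - dl i)) +
      ∑ i ∈ Bᶜ, (g i : ℝ) * c (g - dl i)) η := by
    apply avg_congr
    intro g _
    unfold lift
    rw [Finset.sum_add_sum_compl]
  rw [e1, avg_add, avg_block, avg_sum]
  unfold lift
  rw [← Finset.sum_add_sum_compl B]
  congr 1
  apply Finset.sum_congr rfl
  intro i hi
  exact avg_one_out (Finset.mem_compl.1 hi) c η

theorem lift_inj (i0 : Fin n) (k : ℕ) (c : (Fin n → ℕ) → ℝ)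
    (h : ∀ η : Fin n → ℕ, ∑ i, η i = k + 1 → lift c η = 0) :
    ∀ θ : Fin n → ℕ, ∑ i, θ i = k → c θ = 0 := by
  have main : ∀ m : ℕ, ∀ θ : Fin n → ℕ, ∑ i, θ i = k → k - θ i0 = m → c θ = 0 := by
    intro m
    induction m using Nat.strong_induction_on with
    | _ m ih =>
      intro θ hθ hm
      have h1 := h (θ + dl i0) (by rw [sum_add_dl, hθ])
      unfold lift at h1
      rw [← Finset.add_sum_erase _ _ (Finset.mem_univ i0)] at h1
      have h2 : ∑ i ∈ univ.erase i0, (((θ + dl i0) i : ℕ) : ℝ) * c (θ + dl i0 - dl i) = 0 := by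
        apply Finset.sum_eq_zero
        intro i hi
        have hne : i ≠ i0 := Finset.ne_of_mem_erase hi
        by_cases h0 : (θ + dl i0) i = 0
        · rw [h0]; simp
        · have hs : ∑ j, (θ + dl i0 - dl i) j = k := by
            have h3 := sum_add_dl (θ + dl i0 - dl i) i
            rw [sub_dl_add h0, sum_add_dl, hθ] at h3
            omega
          have hv : (θ + dl i0 - dl i) i0 = θ i0 + 1 := by
            simp [dl_self, dl_ne (Ne.symm hne)]
          have hle : (θ + dl i0 - dl i) i0 ≤ k := by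
            rw [← hs]
            exact Finset.single_le_sum (f := (θ + dl i0 - dl i)) (fun _ _ => Nat.zero_le _)
              (Finset.mem_univ i0)
          rw [ih (k - (θ + dl i0 - dl i) i0) (by omega) _ hs rfl, mul_zero]
      rw [h2, add_zero, add_dl_sub] at h1
      rcases mul_eq_zero.1 h1 with h3 | h3
      · exfalso
        have : (θ + dl i0) i0 = 0 := by exact_mod_cast h3
        simp [dl_self] at this
      · exact h3
  intro θ hθ
  exact main _ θ hθ rfl

/-- the bilinear form -/
theorem form_add (c : (Fin n → ℕ) → ℝ) (θ : Fin n → ℕ) (i j k : Fin n)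
    (h : ∀ u : Fin n → ℝ, ∑ i, u i = 0 → form c θ u = 0) :
    c (θ + dl i + dl j) - c (θ + dl i + dl k) - c (θ + dl j + dl k) + c (θ + dl k + dl k) = 0 := by
  have hs := form_symm c θ
  have h1 := h _ (sum_ee i k)
  have h2 := h _ (sum_ee j k)
  have h3 := h _ (sum_ee i j)
  rw [form_eq_qf, qf_ee _ (fun a b => hs a b)] at h1 h2 h3
  linear_combination (1/2) * h1 + (1/2) * h2 - (1/2) * h3

theorem const_of_step (i0 : Fin n) (k : ℕ) (D : (Fin n → ℕ) → ℝ)
    (h : ∀ θ : Fin n → ℕ, ∑ i, θ i = k → ∀ j, D (θ + dl j) = D (θ + dl i0)) :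
    ∃ a, ∀ ζ : Fin n → ℕ, ∑ i, ζ i = k + 1 → D ζ = a := by
  refine ⟨D (Pi.single i0 (k + 1)), ?_⟩
  have main : ∀ m : ℕ, ∀ ζ : Fin n → ℕ, ∑ i, ζ i = k + 1 → k + 1 - ζ i0 = m →
      D ζ = D (Pi.single i0 (k + 1)) := by
    intro m
    induction m using Nat.strong_induction_on with
    | _ m ih =>
      intro ζ hζ hm
      by_cases h0 : ∃ j, j ≠ i0 ∧ ζ j ≠ 0
      · obtain ⟨j, hj, hne⟩ := h0
        have h1 : ∑ i, (ζ - dl j) i = k := by
          have h3 := sum_add_dl (ζ - dl j) j
          rw [sub_dl_add hne, hζ] at h3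
          omega
        have h2 := h (ζ - dl j) h1 j
        rw [sub_dl_add hne] at h2
        rw [h2]
        have h4 : ∑ i, (ζ - dl j + dl i0) i = k + 1 := by rw [sum_add_dl, h1]
        have hv : (ζ - dl j + dl i0) i0 = ζ i0 + 1 := by
          simp [dl_self, dl_ne (Ne.symm hj)]
        have hle : (ζ - dl j + dl i0) i0 ≤ k + 1 := by
          rw [← h4]
          exact Finset.single_le_sum (f := (ζ - dl j + dl i0)) (fun _ _ => Nat.zero_le _)
            (Finset.mem_univ i0)
        exact ih (k + 1 - (ζ - dl j + dl i0) i0) (by omega) _ h4 rfl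
      · push Not at h0
        have : ζ = Pi.single i0 (k + 1) := by
          have h1 : ζ i0 = k + 1 := by
            rw [← hζ, Finset.sum_eq_single i0 (fun j _ hj => h0 j hj)
              (fun h => absurd (Finset.mem_univ _) h)]
          funext j
          by_cases hj : j = i0
          · subst hj; rw [h1]; simp
          · rw [h0 j hj]; simp [hj]
        rw [this]
  intro ζ hζ
  exact main _ ζ hζ rfl

theorem linear_of_forms (i0 : Fin n) (m : ℕ) (c : (Fin n → ℕ) → ℝ)
    (h : ∀ θ : Fin n → ℕ, ∑ i, θ i = m → ∀ u : Fin n → ℝ, ∑ i, u i = 0 → form c θ u = 0) :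
    ∃ a : Fin n → ℝ, ∀ η : Fin n → ℕ, ∑ i, η i = m + 2 → c η = ∑ i, a i * η i := by
  have h1 : ∀ i, ∃ a, ∀ ζ : Fin n → ℕ, ∑ i, ζ i = m + 1 → c (ζ + dl i) - c (ζ + dl i0) = a := by
    intro i
    apply const_of_step i0 m (fun ζ => c (ζ + dl i) - c (ζ + dl i0))
    intro θ hθ j
    have := form_add c θ i j i0 (h θ hθ)
    have e1 : c (θ + dl i + dl j) = c (θ + dl j + dl i) := by rw [add_right_comm]
    have e2 : c (θ + dl i + dl i0) = c (θ + dl i0 + dl i) := by rw [add_right_comm]
    linarith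
  choose α hα using h1
  have hα0 : α i0 = 0 := by
    have := hα i0 (Pi.single i0 (m + 1)) (by simp)
    rw [← this]; ring
  have h2 : ∀ η : Fin n → ℕ, ∑ i, η i = m + 2 →
      c η = c (Pi.single i0 (m + 2)) + ∑ i, α i * η i := by
    have := const_of_step i0 (m + 1) (fun η => c η - ∑ i, α i * η i) ?_
    · obtain ⟨a, ha⟩ := this
      intro η hη
      have h3 := ha η hη
      have h4 := ha (Pi.single i0 (m + 2)) (by simp)
      have h5 : ∑ i, α i * ((Pi.single i0 (m + 2) : Fin n → ℕ) i : ℝ) = 0 := by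
        rw [Finset.sum_eq_single i0]
        · rw [hα0, zero_mul]
        · intro j _ hj
          simp [hj]
        · intro h; exact absurd (Finset.mem_univ _) h
      rw [h5] at h4
      linarith
    · intro θ hθ j
      have h3 := hα j θ hθ
      have h4 : ∀ i, ∑ l, α l * (((θ + dl i) l : ℕ) : ℝ) = ∑ l, α l * (θ l : ℝ) + α i := by
        intro i
        have : ∀ l, α l * (((θ + dl i) l : ℕ) : ℝ) = α l * (θ l : ℝ) + if l = i then α l else 0 := by
          intro l
          rw [Pi.add_apply, dl_apply]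
          split_ifs <;> push_cast <;> ring
        simp only [this, Finset.sum_add_distrib, Finset.sum_ite_eq', Finset.mem_univ, if_true]
      simp only [h4, hα0]
      linarith
  refine ⟨fun i => α i + c (Pi.single i0 (m + 2)) / (m + 2), ?_⟩
  intro η hη
  rw [h2 η hη]
  have h5 : (∑ i, (η i : ℝ)) = m + 2 := by exact_mod_cast hη
  have h6 : (m : ℝ) + 2 ≠ 0 := by positivity
  simp only [add_mul, Finset.sum_add_distrib, ← Finset.mul_sum, h5]
  field_simp
  ring

/-- a linear function on `m+2` particles is the lift of a linear function on `m+1` particles -/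
theorem linear_lift (m : ℕ) (a : Fin n → ℝ) (η : Fin n → ℕ) (hη : ∑ i, η i = m + 2) :
    ∑ i, a i * (η i : ℝ) = lift (fun ζ => (∑ i, a i * (ζ i : ℝ)) / (m + 1)) η := by
  unfold lift
  have h6 : (m : ℝ) + 1 ≠ 0 := by positivity
  have h5 : (∑ i, (η i : ℝ)) = m + 2 := by exact_mod_cast hη
  have e : ∀ i, (η i : ℝ) * ((∑ j, a j * (((η - dl i) j : ℕ) : ℝ)) / (m + 1)) =
      ((η i : ℝ) * (∑ j, a j * (η j : ℝ)) - a i * η i) / (m + 1) := by
    intro i
    by_cases h : η i = 0
    · rw [h]; simp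
    · have : ∑ j, a j * (((η - dl i) j : ℕ) : ℝ) = ∑ j, a j * (η j : ℝ) - a i := by
        have h7 : ∑ j, a j * (η j : ℝ) = ∑ j, a j * (((η - dl i + dl i) j : ℕ) : ℝ) := by
          rw [sub_dl_add h]
        rw [h7]
        have : ∀ l, a l * (((η - dl i + dl i) l : ℕ) : ℝ) =
            a l * (((η - dl i) l : ℕ) : ℝ) + if l = i then a l else 0 := by
          intro l
          rw [Pi.add_apply, dl_apply]
          split_ifs <;> push_cast <;> ring
        simp only [this, Finset.sum_add_distrib, Finset.sum_ite_eq', Finset.mem_univ, if_true]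
        ring
      rw [this]
      ring
  rw [Finset.sum_congr rfl (fun i _ => e i), ← Finset.sum_div, Finset.sum_sub_distrib,
    ← Finset.sum_mul, h5]
  field_simp
  ring

end Pool.Agent.W832.KMP
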