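import Pool.Agent.W832.KMP.Comb

/-! The contraction estimate for second differences under a block average. -/

set_option autoImplicit false

open Finset

namespace Pool.Agent.W832.KMP

variable {n : ℕ}

/-- second difference form of `c` at `θ` in the direction `z` -/
noncomputable def form (c : (Fin n → ℕ) → ℝ) (θ : Fin n → ℕ) (z : Fin n → ℝ) : ℝ :=
  ∑ a, ∑ b, z a * z b * c (θ + dl a + dl b)

/-- law of the new position of a particle added at `i` -/
noncomputable def kap (B : Finset (Fin n)) (i : Fin n) (g : Fin n → ℕ) (a : Fin n) : ℝ :=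
  if i ∈ B then (if a ∈ B then pB B g a else 0) else (if a = i then 1 else 0)

theorem avg_add_dl (B : Finset (Fin n)) (i : Fin n) (f : Fin n → ℕ) (c : (Fin n → ℕ) → ℝ) :
    avg B c (f + dl i) = avg B (fun g => ∑ a, kap B i g a * c (g + dl a)) f := by
  by_cases hi : i ∈ B
  · rw [avg_in hi]
    apply avg_congr
    intro g _
    unfold TB kap
    rw [← Finset.sum_filter_add_sum_filter_not univ (fun a => a ∈ B)]
    have e1 : (univ.filter (fun a => a ∈ B)) = B := by ext; simp
    rw [e1]
    have e2 : ∑ a ∈ univ.filter (fun a => ¬ a ∈ B),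
        (if i ∈ B then (if a ∈ B then pB B g a else 0) else (if a = i then 1 else 0)) *
          c (g + dl a) = 0 := by
      apply Finset.sum_eq_zero
      intro a ha
      rw [Finset.mem_filter] at ha
      simp [hi, ha.2]
    rw [e2, add_zero]
    apply Finset.sum_congr rfl
    intro a ha
    simp [hi, ha]
  · rw [avg_out hi]
    apply avg_congr
    intro g _
    unfold kap
    simp [hi]

/-- `v_a(g)` -/
noncomputable def vv (B : Finset (Fin n)) (z : Fin n → ℝ) (g : Fin n → ℕ) (a : Fin n) : ℝ :=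
  if a ∈ B then (∑ i ∈ B, z i) * pB B g a else z a

theorem sum_kap (B : Finset (Fin n)) (z : Fin n → ℝ) (g : Fin n → ℕ) (a : Fin n) :
    ∑ i, z i * kap B i g a = vv B z g a := by
  unfold kap vv
  by_cases ha : a ∈ B
  · simp only [ha, if_true]
    rw [← Finset.sum_filter_add_sum_filter_not univ (fun i => i ∈ B)]
    have e1 : (univ.filter (fun a => a ∈ B)) = B := by ext; simp
    rw [e1]
    have e2 : ∑ i ∈ univ.filter (fun a => ¬ a ∈ B),
        z i * (if i ∈ B then pB B g a else (if a = i then 1 else 0)) = 0 := by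
      apply Finset.sum_eq_zero
      intro i hi
      rw [Finset.mem_filter] at hi
      have : a ≠ i := fun e => hi.2 (e ▸ ha)
      simp [hi.2, this]
    rw [e2, add_zero, Finset.sum_mul]
    apply Finset.sum_congr rfl
    intro i hi
    simp [hi]
  · simp only [ha, if_false]
    rw [Finset.sum_eq_single a]
    · simp [ha]
    · intro i _ hi
      by_cases h : i ∈ B
      · simp [h]
      · simp [h, Ne.symm hi]
    · simp

theorem form_avg (B : Finset (Fin n)) (c : (Fin n → ℕ) → ℝ) (θ : Fin n → ℕ) (z : Fin n → ℝ) :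
    form (avg B c) θ z = avg B (fun g => ∑ a, ∑ b, vv B z g a * vv B z (g + dl a) b *
      c (g + dl a + dl b)) θ := by
  have e1 : ∀ i j, avg B c (θ + dl i + dl j) =
      avg B (fun g => ∑ a, kap B i g a * ∑ b, kap B j (g + dl a) b * c (g + dl a + dl b)) θ := by
    intro i j
    rw [avg_add_dl B j, avg_add_dl B i]
  unfold form
  have e2 : ∑ i, ∑ j, z i * z j * avg B c (θ + dl i + dl j) =
      avg B (fun g => ∑ i, ∑ j, z i * z j * (∑ a, kap B i g a * ∑ b, kap B j (g + dl a) b *
        c (g + dl a + dl b))) θ := by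
    rw [avg_sum]
    apply Finset.sum_congr rfl
    intro i _
    rw [avg_sum]
    apply Finset.sum_congr rfl
    intro j _
    rw [avg_mul, e1]
  rw [e2]
  apply avg_congr
  intro g _
  have e3 : ∀ i j, z i * z j * (∑ a, kap B i g a * ∑ b, kap B j (g + dl a) b *
        c (g + dl a + dl b)) =
      ∑ a, ∑ b, (z i * kap B i g a) * (z j * kap B j (g + dl a) b) * c (g + dl a + dl b) := by
    intro i j
    rw [Finset.mul_sum]
    apply Finset.sum_congr rfl
    intro a _
    rw [Finset.mul_sum, Finset.mul_sum]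
    apply Finset.sum_congr rfl
    intro b _
    ring
  simp only [e3]
  -- exchange sums
  have e4 : ∑ i, ∑ j, ∑ a, ∑ b, (z i * kap B i g a) * (z j * kap B j (g + dl a) b) *
      c (g + dl a + dl b) = ∑ a, ∑ b, (∑ i, z i * kap B i g a) *
        (∑ j, z j * kap B j (g + dl a) b) * c (g + dl a + dl b) := by
    calc _ = ∑ i, ∑ a, ∑ j, ∑ b, (z i * kap B i g a) * (z j * kap B j (g + dl a) b) *
        c (g + dl a + dl b) := by
          apply Finset.sum_congr rfl
          intro i _
          rw [Finset.sum_comm]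
      _ = ∑ a, ∑ i, ∑ j, ∑ b, (z i * kap B i g a) * (z j * kap B j (g + dl a) b) *
        c (g + dl a + dl b) := by rw [Finset.sum_comm]
      _ = _ := by
          apply Finset.sum_congr rfl
          intro a _
          calc _ = ∑ i, ∑ b, ∑ j, (z i * kap B i g a) * (z j * kap B j (g + dl a) b) *
                c (g + dl a + dl b) := by
                apply Finset.sum_congr rfl
                intro i _
                rw [Finset.sum_comm]
            _ = ∑ b, ∑ i, ∑ j, (z i * kap B i g a) * (z j * kap B j (g + dl a) b) *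
                c (g + dl a + dl b) := by rw [Finset.sum_comm]
            _ = _ := by
                apply Finset.sum_congr rfl
                intro b _
                rw [Finset.sum_mul_sum, Finset.sum_mul]
                apply Finset.sum_congr rfl
                intro i _
                rw [Finset.sum_mul]
  rw [e4]
  simp only [sum_kap]

/-! ### exchangeability -/

theorem pB_out {B : Finset (Fin n)} {j : Fin n} (hj : j ∉ B) (g : Fin n → ℕ) {a : Fin n}
    (ha : a ∈ B) : pB B (g + dl j) a = pB B g a := by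
  have : a ≠ j := fun e => hj (e ▸ ha)
  unfold pB
  rw [sB_out hj]
  simp [dl_ne this]

theorem pB_in {B : Finset (Fin n)} {i : Fin n} (hi : i ∈ B) (g : Fin n → ℕ) (a : Fin n) :
    pB B (g + dl i) a = (sB B g * pB B g a + if a = i then 1 else 0) / (sB B g + 1) := by
  unfold pB
  rw [sB_in hi, Pi.add_apply, dl_apply]
  have := (sB_pos hi g).ne'
  push_cast
  field_simp
  ring

theorem exch {B : Finset (Fin n)} {i a : Fin n} (hi : i ∈ B) (ha : a ∈ B) (g : Fin n → ℕ) :
    pB B g i * pB B (g + dl i) a = pB B g a * pB B (g + dl a) i := by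
  by_cases h : i = a
  · subst h; rfl
  · rw [pB_in hi, pB_in ha, if_neg (Ne.symm h), if_neg h]
    ring

theorem mart1 {B : Finset (Fin n)} {b : Fin n} (hb : b ∈ B) (g : Fin n → ℕ) :
    ∑ i ∈ B, pB B g i * pB B (g + dl i) b = pB B g b := by
  rw [Finset.sum_congr rfl (fun i hi => exch hi hb g), ← Finset.mul_sum, sum_pB hb, mul_one]

theorem vv_out {B : Finset (Fin n)} {j : Fin n} (hj : j ∉ B) (z : Fin n → ℝ) (g : Fin n → ℕ)
    (a : Fin n) : vv B z (g + dl j) a = vv B z g a := by
  unfold vv
  by_cases ha : a ∈ B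
  · simp only [ha, if_true, pB_out hj g ha]
  · simp [ha]

theorem mart_vv {B : Finset (Fin n)} {i0 : Fin n} (hi0 : i0 ∈ B) (z : Fin n → ℝ)
    (g : Fin n → ℕ) (a : Fin n) :
    ∑ i ∈ B, pB B g i * vv B z (g + dl i) a = vv B z g a := by
  unfold vv
  by_cases ha : a ∈ B
  · simp only [ha, if_true]
    rw [← mart1 ha g, Finset.mul_sum]
    apply Finset.sum_congr rfl
    intro i _
    ring
  · simp only [ha, if_false]
    rw [← Finset.sum_mul, sum_pB hi0, one_mul]

theorem mart_W {B : Finset (Fin n)} {i0 : Fin n} (hi0 : i0 ∈ B) (z : Fin n → ℝ)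
    (g : Fin n → ℕ) (a b : Fin n) :
    ∑ i ∈ B, pB B g i * (vv B z (g + dl i) a * vv B z (g + dl i + dl a) b) =
      vv B z g a * vv B z (g + dl a) b := by
  by_cases ha : a ∈ B
  · have e : ∀ i ∈ B, pB B g i * (vv B z (g + dl i) a * vv B z (g + dl i + dl a) b) =
        vv B z g a * (pB B (g + dl a) i * vv B z (g + dl a + dl i) b) := by
      intro i hi
      have h1 : vv B z (g + dl i) a = (∑ i ∈ B, z i) * pB B (g + dl i) a := by simp [vv, ha]
      have h2 : vv B z g a = (∑ i ∈ B, z i) * pB B g a := by simp [vv, ha]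
      rw [h1, h2, add_right_comm g (dl i) (dl a)]
      have := exch hi ha g
      calc _ = (∑ i ∈ B, z i) * (pB B g i * pB B (g + dl i) a) * vv B z (g + dl a + dl i) b := by
            ring
        _ = _ := by rw [this]; ring
    rw [Finset.sum_congr rfl e, ← Finset.mul_sum, mart_vv hi0]
  · have e : ∀ i ∈ B, pB B g i * (vv B z (g + dl i) a * vv B z (g + dl i + dl a) b) =
        vv B z g a * (pB B g i * vv B z (g + dl i) b) := by
      intro i _
      have h1 : vv B z (g + dl i) a = vv B z g a := by simp [vv, ha]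
      rw [h1, vv_out ha]
      ring
    rw [Finset.sum_congr rfl e, ← Finset.mul_sum, mart_vv hi0, vv_out ha]

/-- the majorant -/
noncomputable def Phi (B : Finset (Fin n)) (z : Fin n → ℝ) (q : Fin n → Fin n → ℝ)
    (g : Fin n → ℕ) : ℝ :=
  ∑ a, ∑ b, vv B z g a * vv B z (g + dl a) b * q a b

theorem Phi_out {B : Finset (Fin n)} {j : Fin n} (hj : j ∉ B) (z : Fin n → ℝ)
    (q : Fin n → Fin n → ℝ) (g : Fin n → ℕ) : Phi B z q (g + dl j) = Phi B z q g := by
  unfold Phi
  apply Finset.sum_congr rfl
  intro a _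
  apply Finset.sum_congr rfl
  intro b _
  rw [vv_out hj, add_right_comm g (dl j) (dl a), vv_out hj]

theorem Phi_in {B : Finset (Fin n)} {i0 : Fin n} (hi0 : i0 ∈ B) (z : Fin n → ℝ)
    (q : Fin n → Fin n → ℝ) (g : Fin n → ℕ) : TB B (Phi B z q) g = Phi B z q g := by
  unfold TB Phi
  simp only [Finset.mul_sum]
  rw [Finset.sum_comm]
  apply Finset.sum_congr rfl
  intro a _
  rw [Finset.sum_comm]
  apply Finset.sum_congr rfl
  intro b _
  rw [← mart_W hi0 z g a b, Finset.sum_mul]
  apply Finset.sum_congr rfl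
  intro i _
  ring

theorem avg_Phi_add {B : Finset (Fin n)} {i0 : Fin n} (hi0 : i0 ∈ B) (z : Fin n → ℝ)
    (q : Fin n → Fin n → ℝ) (f : Fin n → ℕ) (i : Fin n) :
    avg B (Phi B z q) (f + dl i) = avg B (Phi B z q) f := by
  by_cases hi : i ∈ B
  · rw [avg_in hi]
    exact avg_congr fun g _ => Phi_in hi0 z q g
  · rw [avg_out hi]
    exact avg_congr fun g _ => Phi_out hi z q g

theorem config_induction {P : (Fin n → ℕ) → Prop} (h0 : P 0)
    (hadd : ∀ f i, P f → P (f + dl i)) (f : Fin n → ℕ) : P f := by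
  obtain ⟨m, hm⟩ : ∃ m, ∑ i, f i = m := ⟨_, rfl⟩
  induction m generalizing f with
  | zero =>
    have : f = 0 := by
      funext i
      have := Finset.sum_eq_zero_iff.1 hm i (Finset.mem_univ i)
      simpa using this
    rw [this]; exact h0
  | succ m ih =>
    have hex : ∃ i, f i ≠ 0 := by
      by_contra hcon
      push Not at hcon
      have : ∑ i, f i = 0 := Finset.sum_eq_zero fun i _ => hcon i
      omega
    obtain ⟨i, hi⟩ := hex
    have hadd' : f - dl i + dl i = f := by
      funext j
      simp only [Pi.add_apply, Pi.sub_apply]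
      by_cases hj : j = i
      · subst hj; rw [dl_self]; omega
      · rw [dl_ne hj]; omega
    rw [← hadd']
    apply hadd
    apply ih
    have h1 := sum_add_dl (f - dl i) i
    rw [hadd', hm] at h1
    omega

theorem avg_Phi {B : Finset (Fin n)} {i0 : Fin n} (hi0 : i0 ∈ B) (z : Fin n → ℝ)
    (q : Fin n → Fin n → ℝ) (f : Fin n → ℕ) :
    avg B (Phi B z q) f = avg B (Phi B z q) 0 := by
  induction f using config_induction with
  | h0 => rfl
  | hadd f i ih => rw [avg_Phi_add hi0, ih]

theorem mem_cls_zero {B : Finset (Fin n)} {g : Fin n → ℕ} (h : g ∈ cls B 0) : g = 0 := by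
  rw [mem_cls] at h
  have h1 : ∑ i, g i = 0 := by simpa using h.1
  funext i
  have := Finset.sum_eq_zero_iff.1 h1 i (Finset.mem_univ i)
  simpa using this

theorem form_avg_zero (B : Finset (Fin n)) (q : (Fin n → ℕ) → ℝ) (z : Fin n → ℝ) :
    form (avg B q) 0 z = avg B (Phi B z (fun a b => q (0 + dl a + dl b))) 0 := by
  rw [form_avg]
  apply avg_congr
  intro g hg
  rw [mem_cls_zero hg]
  rfl

/-! ### positivity -/

/-- quadratic form of a matrix -/
noncomputable def qf (M : Fin n → Fin n → ℝ) (u : Fin n → ℝ) : ℝ := ∑ a, ∑ b, u a * u b * M a b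

theorem form_eq_qf (c : (Fin n → ℕ) → ℝ) (θ : Fin n → ℕ) (z : Fin n → ℝ) :
    form c θ z = qf (fun a b => c (θ + dl a + dl b)) z := rfl

/-- the vector `e_a - e_b` -/
def ee (a b : Fin n) : Fin n → ℝ := Pi.single a 1 - Pi.single b 1

theorem sum_ee (a b : Fin n) : ∑ i, ee a b i = 0 := by
  simp [ee, Finset.sum_sub_distrib]

theorem qf_ee (M : Fin n → Fin n → ℝ) (hM : ∀ a b, M a b = M b a) (i j : Fin n) :
    qf M (ee i j) = M i i + M j j - 2 * M i j := by
  have e : ∀ a b, ee i j a * ee i j b * M a b =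
      (Pi.single i (1 : ℝ) : Fin n → ℝ) a * ((Pi.single i (1 : ℝ) : Fin n → ℝ) b * M a b)
      - (Pi.single i (1 : ℝ) : Fin n → ℝ) a * ((Pi.single j (1 : ℝ) : Fin n → ℝ) b * M a b)
      - (Pi.single j (1 : ℝ) : Fin n → ℝ) a * ((Pi.single i (1 : ℝ) : Fin n → ℝ) b * M a b)
      + (Pi.single j (1 : ℝ) : Fin n → ℝ) a * ((Pi.single j (1 : ℝ) : Fin n → ℝ) b * M a b) := by
    intro a b
    simp only [ee, Pi.sub_apply]
    ring
  unfold qf
  simp only [e, Finset.sum_add_distrib, Finset.sum_sub_distrib, ← Finset.mul_sum]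
  simp only [Pi.single_apply, ite_mul, one_mul, zero_mul, Finset.sum_ite_eq', Finset.mem_univ,
    if_true]
  rw [hM j i]
  ring

theorem sum_vv {B : Finset (Fin n)} {i0 : Fin n} (hi0 : i0 ∈ B) (z : Fin n → ℝ)
    (g : Fin n → ℕ) : ∑ a, vv B z g a = ∑ a, z a := by
  rw [← Finset.sum_add_sum_compl B, ← Finset.sum_add_sum_compl B z]
  congr 1
  · have : ∀ a ∈ B, vv B z g a = (∑ i ∈ B, z i) * pB B g a := by
      intro a ha; simp [vv, ha]
    rw [Finset.sum_congr rfl this, ← Finset.mul_sum, sum_pB hi0, mul_one]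
  · apply Finset.sum_congr rfl
    intro a ha
    simp [vv, Finset.mem_compl.1 ha]

theorem Phi_decomp {B : Finset (Fin n)} {i0 : Fin n} (hi0 : i0 ∈ B) (z : Fin n → ℝ)
    (M : Fin n → Fin n → ℝ) (hM : ∀ a b, M a b = M b a) (g : Fin n → ℕ) :
    Phi B z M g = qf M (vv B z g) + (∑ i ∈ B, z i) ^ 2 / (2 * (sB B g + 1)) *
      ∑ a ∈ B, ∑ b ∈ B, pB B g a * pB B g b * qf M (ee a b) := by
  set S : ℝ := ∑ i ∈ B, z i with hS
  set s : ℝ := sB B g with hs
  have hs0 : 0 < s := sB_pos hi0 g
  -- the correction term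
  have e1 : ∀ a b, vv B z g a * vv B z (g + dl a) b * M a b =
      vv B z g a * vv B z g b * M a b +
        (if a ∈ B then (if b ∈ B then S ^ 2 / (s + 1) * (pB B g a *
          ((if b = a then 1 else 0) - pB B g b) * M a b) else 0) else 0) := by
    intro a b
    by_cases ha : a ∈ B
    · by_cases hb : b ∈ B
      · simp only [vv, ha, hb, if_true, pB_in ha, ← hS, ← hs]
        field_simp
        ring
      · simp [vv, ha, hb]
    · rw [vv_out ha]
      simp [ha]
  unfold Phi
  simp only [e1, Finset.sum_add_distrib]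
  congr 1
  -- restrict the sums to B
  have e2 : ∑ a, ∑ b, (if a ∈ B then (if b ∈ B then S ^ 2 / (s + 1) * (pB B g a *
          ((if b = a then 1 else 0) - pB B g b) * M a b) else 0) else 0) =
      S ^ 2 / (s + 1) * ∑ a ∈ B, ∑ b ∈ B, (pB B g a *
          ((if b = a then 1 else 0) - pB B g b) * M a b) := by
    rw [Finset.mul_sum]
    simp only [Finset.mul_sum]
    have : ∀ a, (∑ b, (if a ∈ B then (if b ∈ B then S ^ 2 / (s + 1) * (pB B g a *
          ((if b = a then 1 else 0) - pB B g b) * M a b) else 0) else 0)) =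
        if a ∈ B then ∑ b ∈ B, S ^ 2 / (s + 1) * (pB B g a *
          ((if b = a then 1 else 0) - pB B g b) * M a b) else 0 := by
      intro a
      by_cases ha : a ∈ B
      · simp only [ha, if_true]
        rw [← Finset.sum_filter]
        congr 1
        ext; simp
      · simp [ha]
    simp only [this]
    rw [← Finset.sum_filter]
    congr 1
    ext; simp
  rw [e2]
  -- algebra
  have e3 : ∑ a ∈ B, ∑ b ∈ B, (pB B g a * ((if b = a then 1 else 0) - pB B g b) * M a b) =
      ∑ a ∈ B, pB B g a * M a a - ∑ a ∈ B, ∑ b ∈ B, pB B g a * pB B g b * M a b := by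
    rw [← Finset.sum_sub_distrib]
    apply Finset.sum_congr rfl
    intro a ha
    have : ∀ b ∈ B, pB B g a * ((if b = a then 1 else 0) - pB B g b) * M a b =
        (if b = a then pB B g a * M a b else 0) - pB B g a * pB B g b * M a b := by
      intro b _
      by_cases h : b = a
      · simp [h]; ring
      · simp [h]
    rw [Finset.sum_congr rfl this, Finset.sum_sub_distrib, Finset.sum_ite_eq' B a, if_pos ha]
  have e4 : ∑ a ∈ B, ∑ b ∈ B, pB B g a * pB B g b * qf M (ee a b) =
      2 * (∑ a ∈ B, pB B g a * M a a - ∑ a ∈ B, ∑ b ∈ B, pB B g a * pB B g b * M a b) := by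
    have h1 : ∑ a ∈ B, ∑ b ∈ B, pB B g a * pB B g b * M a a = ∑ a ∈ B, pB B g a * M a a := by
      apply Finset.sum_congr rfl
      intro a _
      have : ∀ b ∈ B, pB B g a * pB B g b * M a a = (pB B g a * M a a) * pB B g b := by
        intro b _; ring
      rw [Finset.sum_congr rfl this, ← Finset.mul_sum, sum_pB hi0, mul_one]
    have h2 : ∑ a ∈ B, ∑ b ∈ B, pB B g a * pB B g b * M b b = ∑ a ∈ B, pB B g a * M a a := by
      rw [Finset.sum_comm, ← h1]
      apply Finset.sum_congr rfl
      intro a _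
      apply Finset.sum_congr rfl
      intro b _
      ring
    have h3 : ∀ a b, pB B g a * pB B g b * qf M (ee a b) = pB B g a * pB B g b * M a a +
        pB B g a * pB B g b * M b b - 2 * (pB B g a * pB B g b * M a b) := by
      intro a b
      rw [qf_ee M hM]
      ring
    simp only [h3, Finset.sum_add_distrib, Finset.sum_sub_distrib, ← Finset.mul_sum]
    rw [h1, h2]
    ring
  rw [e3, e4]
  field_simp

theorem form_symm (c : (Fin n → ℕ) → ℝ) (g : Fin n → ℕ) (a b : Fin n) :
    c (g + dl a + dl b) = c (g + dl b + dl a) := by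
  rw [add_right_comm]

theorem avg_empty (c : (Fin n → ℕ) → ℝ) (f : Fin n → ℕ) : avg ∅ c f = c f := by
  have : cls ∅ f = {f} := by
    ext g
    rw [mem_cls, Finset.mem_singleton]
    constructor
    · rintro ⟨_, h⟩
      funext j
      exact h j (by simp)
    · rintro rfl
      simp
  simp [avg, this]

/-- **One step.** -/
theorem one_step (B : Finset (Fin n)) (c q : (Fin n → ℕ) → ℝ) (m : ℕ) (K : ℝ)
    (H : ∀ g : Fin n → ℕ, ∑ i, g i = m → ∀ u : Fin n → ℝ, ∑ i, u i = 0 →
      |form c g u| ≤ K * form q 0 u)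
    (θ : Fin n → ℕ) (hθ : ∑ i, θ i = m) (z : Fin n → ℝ) (hz : ∑ i, z i = 0) :
    |form (avg B c) θ z| ≤ K * form (avg B q) 0 z := by
  rcases B.eq_empty_or_nonempty with rfl | ⟨i0, hi0⟩
  · have e1 : form (avg ∅ c) θ z = form c θ z := by
      unfold form
      simp only [avg_empty]
    have e2 : form (avg ∅ q) 0 z = form q 0 z := by
      unfold form
      simp only [avg_empty]
    rw [e1, e2]
    exact H θ hθ z hz
  · rw [form_avg_zero, ← avg_Phi hi0 z _ θ, ← avg_mul, form_avg]
    refine (abs_avg_le _ _ _).trans (avg_mono fun g hg => ?_)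
    have hgm : ∑ i, g i = m := by
      rw [mem_cls] at hg
      rw [hg.1, hθ]
    have e1 : (∑ a, ∑ b, vv B z g a * vv B z (g + dl a) b * c (g + dl a + dl b)) =
        Phi B z (fun a b => c (g + dl a + dl b)) g := rfl
    rw [e1, Phi_decomp hi0 z _ (fun a b => form_symm c g a b),
      Phi_decomp hi0 z _ (fun a b => form_symm q 0 a b)]
    have hs0 : 0 < sB B g := sB_pos hi0 g
    have h1 : |qf (fun a b => c (g + dl a + dl b)) (vv B z g)| ≤
        K * qf (fun a b => q (0 + dl a + dl b)) (vv B z g) :=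
      H g hgm _ (by rw [sum_vv hi0, hz])
    have h2 : ∀ a b, |qf (fun a b => c (g + dl a + dl b)) (ee a b)| ≤
        K * qf (fun a b => q (0 + dl a + dl b)) (ee a b) :=
      fun a b => H g hgm _ (sum_ee a b)
    have hp : ∀ a, 0 ≤ pB B g a := by
      intro a
      unfold pB
      positivity
    refine (abs_add_le _ _).trans ?_
    refine (add_le_add h1 ?_).trans_eq (mul_add K _ _).symm
    have hco : 0 ≤ (∑ i ∈ B, z i) ^ 2 / (2 * (sB B g + 1)) := by positivity
    rw [abs_mul, abs_of_nonneg hco, mul_left_comm]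
    refine mul_le_mul_of_nonneg_left ?_ hco
    refine (Finset.abs_sum_le_sum_abs _ _).trans ?_
    rw [Finset.mul_sum]
    refine Finset.sum_le_sum fun a _ => ?_
    refine (Finset.abs_sum_le_sum_abs _ _).trans ?_
    rw [Finset.mul_sum]
    refine Finset.sum_le_sum fun b _ => ?_
    have hpp : 0 ≤ pB B g a * pB B g b := mul_nonneg (hp a) (hp b)
    rw [abs_mul, abs_of_nonneg hpp, mul_left_comm]
    exact mul_le_mul_of_nonneg_left (h2 a b) hpp

end Pool.Agent.W832.KMP
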